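import Pool.Agent.X229.Src

/-!
# The emptiness problem for global index grammars is undecidable

A global index grammar simulates a machine with two stacks: the global stack, and the nonterminals
of the sentential form. The terminals that pushing productions have to produce do not matter.
-/

set_option autoImplicit false

namespace Pool.Agent.Results.MP_c0e261_lc.EmptinessUndecidable

open Relation Pool.Agent.X229.Src

/-- The kind of a production: `inl ()` is a context-free production (i.1), `inr (inl y)` is a test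
of the top `y` of the stack (i.2) where `none` stands for the bottom symbol, `inr (inr (inl
(x, a)))` pushes `x` and produces the terminal `a` first (ii), and `inr (inr (inr x))` pops `x`
(iii). -/
abbrev Kind : Type := Unit ⊕ Option ℕ ⊕ (ℕ × ℕ) ⊕ ℕ

/-- Strings of nonterminals `inl A` and terminals `inr a`; the nonterminals, the terminals and the
stack indices are three disjoint copies of the natural numbers. -/
abbrev Str : Type := List (ℕ ⊕ ℕ)

/-- A production: the nonterminal on the left, the kind, and the string `α`. -/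
abbrev Prd : Type := ℕ × Kind × Str

/-- A global index grammar: the start symbol and the finite list of productions (only the
finitely many symbols occurring in it matter). -/
abbrev GIG : Type := ℕ × List Prd

/-- The effect of a production with kind `K` and string `α`: it changes the stack (the symbols
above the bottom symbol, top first) from `δ` to `δ'`, and the nonterminal is replaced by `β`. -/
def Eff : Kind → Str → List ℕ → List ℕ → Str → Prop
  | .inl _, α, δ, δ', β => δ' = δ ∧ β = α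
  | .inr (.inl y), α, δ, δ', β => δ.head? = y ∧ δ' = δ ∧ β = α
  | .inr (.inr (.inl (x, a))), α, δ, δ', β => δ' = x :: δ ∧ β = .inr a :: α
  | .inr (.inr (.inr x)), α, δ, δ', β => δ = x :: δ' ∧ β = α

/-- A leftmost derivation step on configurations (stack, sentential form). -/
def Step (G : GIG) (c c' : List ℕ × Str) : Prop :=
  ∃ (u : List ℕ) (A : ℕ) (γ : Str) (K : Kind) (α β : Str), (A, K, α) ∈ G.2 ∧
    c.2 = u.map Sum.inr ++ Sum.inl A :: γ ∧ c'.2 = u.map Sum.inr ++ β ++ γ ∧
    Eff K α c.1 c'.1 β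

/-- The generated language: the derivation starts and ends with the empty stack. -/
def lang (G : GIG) : Language ℕ :=
  {w | ReflTransGen (Step G) ([], [Sum.inl G.1]) ([], w.map Sum.inr)}

/-! ### The simulating grammar -/

variable {n k : ℕ} (δ : Tbl n k) (w : List (Fin (k + 1)))

def nS : ℕ := Nat.pair 0 0
def nZ (s : Fin (k + 1)) : ℕ := Nat.pair 1 s
def nE : ℕ := Nat.pair 2 0
def nP (q : Fin (n + 2)) (s : Fin (k + 1)) : ℕ := Nat.pair 3 (Nat.pair q s)
def nQ (q : Fin (n + 2)) : ℕ := Nat.pair 4 q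
def nR (q : Fin (n + 2)) (x s : Fin (k + 1)) : ℕ := Nat.pair 5 (Nat.pair q (Nat.pair x s))
def nC : ℕ := Nat.pair 6 0
def iX (s : Fin (k + 1)) : ℕ := Nat.pair 0 s
def iQ (q : Fin (n + 2)) : ℕ := Nat.pair 1 q

/-- push -/
abbrev pu (x : ℕ) : Kind := .inr (.inr (.inl (x, 0)))
/-- pop -/
abbrev po (x : ℕ) : Kind := .inr (.inr (.inr x))
/-- test of the bottom symbol -/
abbrev bo : Kind := .inr (.inl none)
/-- nonterminals -/
abbrev nt (l : List ℕ) : Str := l.map Sum.inl

/-- The fixed productions. -/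
inductive Rl : Prd → Prop
  | z (q : Fin (n + 2)) (s : Fin (k + 1)) : Rl (nZ s, po (iQ q), nt [nP q s])
  | e (q : Fin (n + 2)) : Rl (nE, po (iQ q), nt [nP q (0 : Fin (k + 1)), nE])
  | zero (q : Fin (n + 2)) (s : Fin (k + 1)) (h : (δ q s).2.2 = .zero) :
      Rl (nP q s, pu (iQ (δ q s).1), nt [nZ (δ q s).2.1])
  | pos (q : Fin (n + 2)) (s : Fin (k + 1)) (h : (δ q s).2.2 = .pos) :
      Rl (nP q s, pu (iX (δ q s).2.1), nt [nQ (δ q s).1])
  | neg (q : Fin (n + 2)) (s x : Fin (k + 1)) (h : (δ q s).2.2 = .neg) :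
      Rl (nP q s, po (iX x), nt [nR (δ q s).1 x (δ q s).2.1])
  | neg0 (q : Fin (n + 2)) (s : Fin (k + 1)) (h : (δ q s).2.2 = .neg) :
      Rl (nP q s, bo, nt [nR (δ q s).1 0 (δ q s).2.1])
  | q (q : Fin (n + 2)) : Rl (nQ q, pu (iQ q), nt [])
  | r (q : Fin (n + 2)) (x s : Fin (k + 1)) : Rl (nR q x s, pu (iQ q), nt [nZ x, nZ s])
  | hz (s : Fin (k + 1)) : Rl (nZ s, po (iQ (1 : Fin (n + 2))), nt [nC])
  | he : Rl (nE, po (iQ (1 : Fin (n + 2))), nt [nC])
  | c (x : Fin (k + 1)) : Rl (nC, po (iX x), nt [nC])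
  | c0 : Rl (nC, bo, nt [])
  | z0 (s : Fin (k + 1)) : Rl (nZ s, bo, nt [])
  | e0 : Rl (nE, bo, nt [])

theorem rl_finite : {ρ | Rl δ ρ}.Finite := by
  have h1 := Set.finite_range fun p : Fin (n + 2) × Fin (k + 1) =>
    ((nZ p.2, po (iQ p.1), nt [nP p.1 p.2]) : Prd)
  have h2 := Set.finite_range fun q : Fin (n + 2) =>
    ((nE, po (iQ q), nt [nP q (0 : Fin (k + 1)), nE]) : Prd)
  have h3 := Set.finite_range fun p : Fin (n + 2) × Fin (k + 1) =>
    ((nP p.1 p.2, pu (iQ (δ p.1 p.2).1), nt [nZ (δ p.1 p.2).2.1]) : Prd)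
  have h4 := Set.finite_range fun p : Fin (n + 2) × Fin (k + 1) =>
    ((nP p.1 p.2, pu (iX (δ p.1 p.2).2.1), nt [nQ (δ p.1 p.2).1]) : Prd)
  have h5 := Set.finite_range fun p : Fin (n + 2) × Fin (k + 1) × Fin (k + 1) =>
    ((nP p.1 p.2.1, po (iX p.2.2), nt [nR (δ p.1 p.2.1).1 p.2.2 (δ p.1 p.2.1).2.1]) : Prd)
  have h6 := Set.finite_range fun p : Fin (n + 2) × Fin (k + 1) =>
    ((nP p.1 p.2, bo, nt [nR (δ p.1 p.2).1 0 (δ p.1 p.2).2.1]) : Prd)
  have h7 := Set.finite_range fun q : Fin (n + 2) => ((nQ q, pu (iQ q), nt []) : Prd)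
  have h8 := Set.finite_range fun p : Fin (n + 2) × Fin (k + 1) × Fin (k + 1) =>
    ((nR p.1 p.2.1 p.2.2, pu (iQ p.1), nt [nZ p.2.1, nZ p.2.2]) : Prd)
  have h9 := Set.finite_range fun s : Fin (k + 1) =>
    ((nZ s, po (iQ (1 : Fin (n + 2))), nt [nC]) : Prd)
  have h10 := Set.finite_singleton ((nE, po (iQ (1 : Fin (n + 2))), nt [nC]) : Prd)
  have h11 := Set.finite_range fun s : Fin (k + 1) => ((nC, po (iX s), nt [nC]) : Prd)
  have h12 := Set.finite_singleton ((nC, bo, nt []) : Prd)
  have h13 := Set.finite_range fun s : Fin (k + 1) => ((nZ s, bo, nt []) : Prd)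
  have h14 := Set.finite_singleton ((nE, bo, nt []) : Prd)
  refine (h1.union (h2.union (h3.union (h4.union (h5.union (h6.union (h7.union (h8.union
    (h9.union (h10.union (h11.union (h12.union (h13.union h14))))))))))))).subset ?_
  rintro ρ h
  cases (h : Rl δ ρ) with
  | z q s => exact Or.inl ⟨(q, s), rfl⟩
  | e q => exact Or.inr (Or.inl ⟨q, rfl⟩)
  | zero q s h => exact Or.inr (Or.inr (Or.inl ⟨(q, s), rfl⟩))
  | pos q s h => exact Or.inr (Or.inr (Or.inr (Or.inl ⟨(q, s), rfl⟩)))
  | neg q s x h => exact Or.inr (Or.inr (Or.inr (Or.inr (Or.inl ⟨(q, s, x), rfl⟩))))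
  | neg0 q s h => exact Or.inr (Or.inr (Or.inr (Or.inr (Or.inr (Or.inl ⟨(q, s), rfl⟩)))))
  | q q => exact Or.inr (Or.inr (Or.inr (Or.inr (Or.inr (Or.inr (Or.inl ⟨q, rfl⟩))))))
  | r q x s =>
    exact Or.inr (Or.inr (Or.inr (Or.inr (Or.inr (Or.inr (Or.inr (Or.inl ⟨(q, x, s), rfl⟩)))))))
  | hz s => exact Or.inr (Or.inr (Or.inr (Or.inr (Or.inr (Or.inr (Or.inr (Or.inr
      (Or.inl ⟨s, rfl⟩))))))))
  | he => exact Or.inr (Or.inr (Or.inr (Or.inr (Or.inr (Or.inr (Or.inr (Or.inr (Or.inr
      (Or.inl rfl)))))))))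
  | c x => exact Or.inr (Or.inr (Or.inr (Or.inr (Or.inr (Or.inr (Or.inr (Or.inr (Or.inr
      (Or.inr (Or.inl ⟨x, rfl⟩))))))))))
  | c0 => exact Or.inr (Or.inr (Or.inr (Or.inr (Or.inr (Or.inr (Or.inr (Or.inr (Or.inr
      (Or.inr (Or.inr (Or.inl rfl)))))))))))
  | z0 s => exact Or.inr (Or.inr (Or.inr (Or.inr (Or.inr (Or.inr (Or.inr (Or.inr (Or.inr
      (Or.inr (Or.inr (Or.inr (Or.inl ⟨s, rfl⟩))))))))))))
  | e0 => exact Or.inr (Or.inr (Or.inr (Or.inr (Or.inr (Or.inr (Or.inr (Or.inr (Or.inr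
      (Or.inr (Or.inr (Or.inr (Or.inr rfl))))))))))))

theorem exists_list : ∃ l : List Prd, ∀ ρ, ρ ∈ l ↔ Rl δ ρ := by
  classical
  exact ⟨(rl_finite δ).toFinset.toList, fun ρ => by simp⟩

/-- The starting production. -/
def sr : Prd := (nS, pu (iQ (0 : Fin (n + 2))), nt (w.map nZ ++ [nE]))

/-- The grammar. -/
def gr (l : List Prd) : GIG := (nS, sr (n := n) w :: l)

/-- The form with the terminals `u` and the nonterminals `l`. -/
def fm (u l : List ℕ) : Str := u.map Sum.inr ++ l.map Sum.inl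

theorem fm_inj {u u' l : List ℕ} {A : ℕ} {γ : Str}
    (h : fm u l = u'.map Sum.inr ++ Sum.inl A :: γ) : u = u' ∧ ∃ l', l = A :: l' ∧
      γ = nt l' := by
  unfold fm at h
  induction u generalizing u' with
  | nil =>
    rcases u' with _ | ⟨a, u'⟩
    · rcases l with _ | ⟨B, l⟩
      · simp at h
      · simp only [List.map_nil, List.nil_append, List.map_cons, List.cons.injEq,
          Sum.inl.injEq] at h
        exact ⟨rfl, l, by rw [h.1], h.2.symm⟩
    · rcases l with _ | ⟨B, l⟩
      · simp at h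
      · simp at h
  | cons a u ih =>
    rcases u' with _ | ⟨b, u'⟩
    · simp at h
    · simp only [List.map_cons, List.cons_append, List.cons.injEq, Sum.inr.injEq] at h
      obtain ⟨h1, h2⟩ := ih h.2
      exact ⟨by rw [h.1, h1], h2⟩

/-- A configuration of the machine is reached. -/
def Rch (c : Cf n k) : Prop := ∃ t, (stp δ)^[t] (0, [], w) = c

theorem rch_step {c : Cf n k} (h : Rch δ w c) : Rch δ w (stp δ c) := by
  obtain ⟨t, rfl⟩ := h
  exact ⟨t + 1, Function.iterate_succ_apply' _ _ _⟩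

/-- The invariant. -/
inductive J : List ℕ → List ℕ → Prop
  | start : J [] [nS]
  | main (q : Fin (n + 2)) (L R : List (Fin (k + 1))) (h : Rch δ w (q, L, R)) :
      J (iQ q :: L.map iX) (R.map nZ ++ [nE])
  | p (q : Fin (n + 2)) (L R : List (Fin (k + 1))) (h : Rch δ w (q, L, R)) :
      J (L.map iX) (nP q R.headI :: (R.tail.map nZ ++ [nE]))
  | q (q : Fin (n + 2)) (L R : List (Fin (k + 1))) (h : Rch δ w (q, L, R)) :
      J (L.map iX) (nQ q :: (R.map nZ ++ [nE]))
  | r (q : Fin (n + 2)) (x s : Fin (k + 1)) (L R : List (Fin (k + 1)))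
      (h : Rch δ w (q, L, x :: s :: R)) : J (L.map iX) (nR q x s :: (R.map nZ ++ [nE]))

theorem stp_zero {c : Cf n k} (h : (δ c.1 c.2.2.headI).2.2 = .zero) :
    stp δ c = ((δ c.1 c.2.2.headI).1, c.2.1, (δ c.1 c.2.2.headI).2.1 :: c.2.2.tail) := by
  unfold stp; rw [h]

theorem stp_pos {c : Cf n k} (h : (δ c.1 c.2.2.headI).2.2 = .pos) :
    stp δ c = ((δ c.1 c.2.2.headI).1, (δ c.1 c.2.2.headI).2.1 :: c.2.1, c.2.2.tail) := by
  unfold stp; rw [h]

theorem stp_neg {c : Cf n k} (h : (δ c.1 c.2.2.headI).2.2 = .neg) :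
    stp δ c = ((δ c.1 c.2.2.headI).1, c.2.1.tail,
      c.2.1.headI :: (δ c.1 c.2.2.headI).2.1 :: c.2.2.tail) := by
  unfold stp; rw [h]

theorem iX_inj {a b : Fin (k + 1)} (h : iX a = iX b) : a = b := by
  unfold iX at h
  rw [Nat.pair_eq_pair] at h
  exact Fin.ext h.2

theorem iQ_inj {a b : Fin (n + 2)} (h : iQ a = iQ b) : a = b := by
  unfold iQ at h
  rw [Nat.pair_eq_pair] at h
  exact Fin.ext h.2

theorem nZ_inj {a b : Fin (k + 1)} (h : nZ a = nZ b) : a = b := by
  unfold nZ at h
  rw [Nat.pair_eq_pair] at h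
  exact Fin.ext h.2

theorem J_step {l : List Prd} (hl : ∀ ρ, ρ ∈ l ↔ Rl δ ρ) {st u ls : List ℕ}
    (hJ : J δ w st ls) {c' : List ℕ × Str} (hs : Step (gr (n := n) w l) (st, fm u ls) c') :
    Hlt δ w ∨ ∃ u' ls', c'.2 = fm u' ls' ∧ J δ w c'.1 ls' := by
  obtain ⟨u', A, γ, K, α, β, hmem, h2, h3, hE⟩ := hs
  obtain ⟨rfl, l', hls, rfl⟩ := fm_inj h2
  have hpop : ∀ l0 : List ℕ, β = nt l0 → c'.2 = fm u (l0 ++ l') := by
    intro l0 h
    rw [h3, h]
    simp [fm]
  have hpush : ∀ l0 : List ℕ, β = .inr 0 :: nt l0 → c'.2 = fm (u ++ [0]) (l0 ++ l') := by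
    intro l0 h
    rw [h3, h]
    simp [fm]
  rcases List.mem_cons.1 hmem with hsr | hr
  · simp only [sr, Prod.mk.injEq] at hsr
    obtain ⟨rfl, rfl, rfl⟩ := hsr
    obtain ⟨h4, h5⟩ := hE
    have h6 := hpush _ h5
    right
    refine ⟨_, _, h6, ?_⟩
    cases hJ with
    | start =>
      simp only [List.cons.injEq, true_and] at hls
      subst hls
      rw [h4, List.append_nil]
      exact J.main 0 [] w ⟨0, rfl⟩
    | main q L R h =>
      exfalso
      rcases R with _ | ⟨s, R⟩ <;> simp [nS, nZ, nE, Nat.pair_eq_pair] at hls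
    | p q L R h => exfalso; simp [nS, nP, Nat.pair_eq_pair] at hls
    | q q L R h => exfalso; simp [nS, nQ, Nat.pair_eq_pair] at hls
    | r q x s L R h => exfalso; simp [nS, nR, Nat.pair_eq_pair] at hls
  · rw [hl] at hr
    generalize hρ : (A, K, α) = ρ at hr
    cases hJ with
    | start =>
      exfalso
      simp only [List.cons.injEq] at hls
      obtain ⟨rfl, -⟩ := hls
      cases hr <;> simp [nS, nZ, nE, nP, nQ, nR, nC, Nat.pair_eq_pair] at hρ
    | main q L R h =>
      rcases R with _ | ⟨s, R⟩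
      · simp only [List.map_nil, List.nil_append, List.cons.injEq] at hls
        obtain ⟨rfl, rfl⟩ := hls
        cases hr with
        | e q' =>
          simp only [Prod.mk.injEq, true_and] at hρ
          obtain ⟨rfl, rfl⟩ := hρ
          obtain ⟨h4, h5⟩ := hE
          simp only [List.cons.injEq] at h4
          obtain ⟨h6, h4⟩ := h4
          have := iQ_inj h6
          subst this
          right
          refine ⟨_, _, hpop _ h5, ?_⟩
          rw [← h4]
          exact J.p q L [] h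
        | he =>
          simp only [Prod.mk.injEq, true_and] at hρ
          obtain ⟨rfl, rfl⟩ := hρ
          obtain ⟨h4, h5⟩ := hE
          simp only [List.cons.injEq] at h4
          obtain ⟨h6, h4⟩ := h4
          have := iQ_inj h6
          subst this
          left
          obtain ⟨t, ht⟩ := h
          exact ⟨t, by rw [ht]⟩
        | e0 =>
          simp only [Prod.mk.injEq, true_and] at hρ
          obtain ⟨rfl, rfl⟩ := hρ
          obtain ⟨h4, h5⟩ := hE
          simp at h4
        | _ => exfalso; simp [nZ, nE, nP, nQ, nR, nC, Nat.pair_eq_pair] at hρ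
      · simp only [List.map_cons, List.cons_append, List.cons.injEq] at hls
        obtain ⟨rfl, rfl⟩ := hls
        cases hr with
        | z q' s' =>
          simp only [Prod.mk.injEq] at hρ
          obtain ⟨hs, rfl, rfl⟩ := hρ
          have := nZ_inj hs
          subst this
          obtain ⟨h4, h5⟩ := hE
          simp only [List.cons.injEq] at h4
          obtain ⟨h6, h4⟩ := h4
          have := iQ_inj h6
          subst this
          right
          refine ⟨_, _, hpop _ h5, ?_⟩
          rw [← h4]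
          exact J.p q L (s :: R) h
        | hz s' =>
          simp only [Prod.mk.injEq] at hρ
          obtain ⟨hs, rfl, rfl⟩ := hρ
          obtain ⟨h4, h5⟩ := hE
          simp only [List.cons.injEq] at h4
          obtain ⟨h6, h4⟩ := h4
          have := iQ_inj h6
          subst this
          left
          obtain ⟨t, ht⟩ := h
          exact ⟨t, by rw [ht]⟩
        | z0 s' =>
          simp only [Prod.mk.injEq] at hρ
          obtain ⟨hs, rfl, rfl⟩ := hρ
          obtain ⟨h4, h5⟩ := hE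
          simp at h4
        | _ => exfalso; simp [nZ, nE, nP, nQ, nR, nC, Nat.pair_eq_pair] at hρ
    | p q L R h =>
      simp only [List.cons.injEq] at hls
      obtain ⟨rfl, rfl⟩ := hls
      have hr1 := rch_step δ w h
      cases hr with
      | zero q' s' hd =>
        simp only [Prod.mk.injEq, nP, Nat.pair_eq_pair, true_and] at hρ
        obtain ⟨⟨hq, hs⟩, rfl, rfl⟩ := hρ
        have hq := Fin.ext hq
        have hs := Fin.ext hs
        subst hq hs
        rw [stp_zero δ hd] at hr1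
        obtain ⟨h4, h5⟩ := hE
        right
        refine ⟨_, _, hpush _ h5, ?_⟩
        rw [h4]
        exact J.main _ L _ hr1
      | pos q' s' hd =>
        simp only [Prod.mk.injEq, nP, Nat.pair_eq_pair, true_and] at hρ
        obtain ⟨⟨hq, hs⟩, rfl, rfl⟩ := hρ
        have hq := Fin.ext hq
        have hs := Fin.ext hs
        subst hq hs
        rw [stp_pos δ hd] at hr1
        obtain ⟨h4, h5⟩ := hE
        right
        refine ⟨_, _, hpush _ h5, ?_⟩
        rw [h4]
        exact J.q _ _ _ hr1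
      | neg q' s' x hd =>
        simp only [Prod.mk.injEq, nP, Nat.pair_eq_pair, true_and] at hρ
        obtain ⟨⟨hq, hs⟩, rfl, rfl⟩ := hρ
        have hq := Fin.ext hq
        have hs := Fin.ext hs
        subst hq hs
        rw [stp_neg δ hd] at hr1
        obtain ⟨h4, h5⟩ := hE
        right
        refine ⟨_, _, hpop _ h5, ?_⟩
        rcases L with _ | ⟨y, L⟩
        · simp at h4
        · simp only [List.map_cons, List.cons.injEq] at h4
          obtain ⟨h6, h4⟩ := h4
          have := iX_inj h6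
          subst this
          rw [← h4]
          exact J.r _ y _ L _ hr1
      | neg0 q' s' hd =>
        simp only [Prod.mk.injEq, nP, Nat.pair_eq_pair, true_and] at hρ
        obtain ⟨⟨hq, hs⟩, rfl, rfl⟩ := hρ
        have hq := Fin.ext hq
        have hs := Fin.ext hs
        subst hq hs
        rw [stp_neg δ hd] at hr1
        obtain ⟨h4, h4', h5⟩ := hE
        right
        refine ⟨_, _, hpop _ h5, ?_⟩
        rcases L with _ | ⟨y, L⟩
        · rw [h4']
          exact J.r _ 0 _ [] _ hr1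
        · simp at h4
      | _ => exfalso; simp [nZ, nE, nP, nQ, nR, nC, Nat.pair_eq_pair] at hρ
    | q q L R h =>
      simp only [List.cons.injEq] at hls
      obtain ⟨rfl, rfl⟩ := hls
      cases hr with
      | q q' =>
        simp only [Prod.mk.injEq, nQ, Nat.pair_eq_pair, true_and] at hρ
        obtain ⟨hq, rfl, rfl⟩ := hρ
        have hq := Fin.ext hq
        subst hq
        obtain ⟨h4, h5⟩ := hE
        right
        refine ⟨_, _, hpush _ h5, ?_⟩
        rw [h4]
        exact J.main _ L _ h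
      | _ => exfalso; simp [nZ, nE, nP, nQ, nR, nC, Nat.pair_eq_pair] at hρ
    | r q x s L R h =>
      simp only [List.cons.injEq] at hls
      obtain ⟨rfl, rfl⟩ := hls
      cases hr with
      | r q' x' s' =>
        simp only [Prod.mk.injEq, nR, Nat.pair_eq_pair, true_and] at hρ
        obtain ⟨⟨hq, hx, hs⟩, rfl, rfl⟩ := hρ
        have hq := Fin.ext hq
        have hx := Fin.ext hx
        have hs := Fin.ext hs
        subst hq hx hs
        obtain ⟨h4, h5⟩ := hE
        right
        refine ⟨_, _, hpush _ h5, ?_⟩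
        rw [h4]
        exact J.main _ L _ h
      | _ => exfalso; simp [nZ, nE, nP, nQ, nR, nC, Nat.pair_eq_pair] at hρ

theorem J_ne {st ls : List ℕ} (h : J δ w st ls) : ls ≠ [] := by
  cases h <;> simp

theorem sound {l : List Prd} (hl : ∀ ρ, ρ ∈ l ↔ Rl δ ρ) {v : List ℕ}
    (hv : v ∈ lang (gr (n := n) w l)) : Hlt δ w := by
  have key : ∀ c, ReflTransGen (Step (gr (n := n) w l)) ([], [Sum.inl nS]) c →
      Hlt δ w ∨ ∃ u ls, c.2 = fm u ls ∧ J δ w c.1 ls := by
    intro c hc
    induction hc with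
    | refl => exact Or.inr ⟨[], [nS], rfl, J.start⟩
    | @tail c c' _ hs ih =>
      rcases ih with h | ⟨u, ls, h1, h2⟩
      · exact Or.inl h
      · obtain ⟨st, f⟩ := c
        simp only at h1 h2
        subst h1
        exact J_step δ w hl h2 hs
  rcases key _ hv with h | ⟨u, ls, h1, h2⟩
  · exact h
  · exfalso
    obtain ⟨a, ls', rfl⟩ := List.exists_cons_of_ne_nil (J_ne δ w h2)
    have : Sum.inl a ∈ v.map (Sum.inr : ℕ → ℕ ⊕ ℕ) := by
      simp only at h1
      rw [h1]
      simp [fm]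
    simp at this

/-! ### Completeness -/

theorem do_push {G : GIG} {A x : ℕ} {l0 : List ℕ} (h : (A, pu x, nt l0) ∈ G.2)
    (st u l' : List ℕ) : Step G (st, fm u (A :: l')) (x :: st, fm (u ++ [0]) (l0 ++ l')) :=
  ⟨u, A, nt l', pu x, nt l0, .inr 0 :: nt l0, h, by simp [fm], by simp [fm], rfl, rfl⟩

theorem do_pop {G : GIG} {A x : ℕ} {l0 : List ℕ} (h : (A, po x, nt l0) ∈ G.2)
    (st u l' : List ℕ) : Step G (x :: st, fm u (A :: l')) (st, fm u (l0 ++ l')) :=
  ⟨u, A, nt l', po x, nt l0, nt l0, h, by simp [fm], by simp [fm], rfl, rfl⟩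

theorem do_bot {G : GIG} {A : ℕ} {l0 : List ℕ} (h : (A, bo, nt l0) ∈ G.2)
    (u l' : List ℕ) : Step G ([], fm u (A :: l')) ([], fm u (l0 ++ l')) :=
  ⟨u, A, nt l', bo, nt l0, nt l0, h, by simp [fm], by simp [fm], rfl, rfl, rfl⟩

/-- The configuration of the grammar for a configuration of the machine. -/
def mc (u : List ℕ) (c : Cf n k) : List ℕ × Str :=
  (iQ c.1 :: c.2.1.map iX, fm u (c.2.2.map nZ ++ [nE]))

theorem one_step {l : List Prd} (hl : ∀ ρ, ρ ∈ l ↔ Rl δ ρ) (u : List ℕ) (c : Cf n k) :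
    ∃ u', ReflTransGen (Step (gr (n := n) w l)) (mc u c) (mc u' (stp δ c)) := by
  obtain ⟨q, L, R⟩ := c
  have hm : ∀ {ρ}, Rl δ ρ → ρ ∈ (gr (n := n) w l).2 := fun {ρ} h =>
    List.mem_cons_of_mem _ ((hl ρ).2 h)
  have h1 : Step (gr (n := n) w l) (mc u (q, L, R))
      (L.map iX, fm u (nP q R.headI :: (R.tail.map nZ ++ [nE]))) := by
    rcases R with _ | ⟨s, R⟩
    · exact do_pop (hm (Rl.e q)) _ _ _
    · exact do_pop (hm (Rl.z q s)) _ _ _
  rcases hd : (δ q R.headI).2.2 with _ | _ | _
  · have hd' : (δ q R.headI).2.2 = .zero := hd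
    rw [stp_zero δ hd']
    refine ⟨u ++ [0], ReflTransGen.head h1 (ReflTransGen.single ?_)⟩
    exact do_push (hm (Rl.zero q R.headI hd')) _ _ _
  · have hd' : (δ q R.headI).2.2 = .neg := hd
    rw [stp_neg δ hd']
    refine ⟨u ++ [0], ReflTransGen.head h1 ?_⟩
    have h2 : Step (gr (n := n) w l)
        (L.map iX, fm u (nP q R.headI :: (R.tail.map nZ ++ [nE])))
        (L.tail.map iX, fm u (nR (δ q R.headI).1 L.headI (δ q R.headI).2.1 ::
          (R.tail.map nZ ++ [nE]))) := by
      rcases L with _ | ⟨x, L⟩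
      · exact do_bot (hm (Rl.neg0 q R.headI hd')) _ _
      · exact do_pop (hm (Rl.neg q R.headI x hd')) _ _ _
    refine ReflTransGen.head h2 (ReflTransGen.single ?_)
    exact do_push (hm (Rl.r (δ q R.headI).1 L.headI (δ q R.headI).2.1)) _ _ _
  · have hd' : (δ q R.headI).2.2 = .pos := hd
    rw [stp_pos δ hd']
    refine ⟨u ++ [0] ++ [0], ReflTransGen.head h1 (ReflTransGen.head
      (do_push (hm (Rl.pos q R.headI hd')) _ _ _) (ReflTransGen.single ?_))⟩
    exact do_push (hm (Rl.q (δ q R.headI).1)) _ _ _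

theorem clean_stack {l : List Prd} (hl : ∀ ρ, ρ ∈ l ↔ Rl δ ρ) (u l' : List ℕ)
    (L : List (Fin (k + 1))) :
    ReflTransGen (Step (gr (n := n) w l)) (L.map iX, fm u (nC :: l')) ([], fm u l') := by
  have hm : ∀ {ρ}, Rl δ ρ → ρ ∈ (gr (n := n) w l).2 := fun {ρ} h =>
    List.mem_cons_of_mem _ ((hl ρ).2 h)
  induction L with
  | nil => exact ReflTransGen.single (do_bot (hm Rl.c0) _ _)
  | cons x L ih => exact ReflTransGen.head (do_pop (hm (Rl.c x)) _ _ _) ih

theorem clean_form {l : List Prd} (hl : ∀ ρ, ρ ∈ l ↔ Rl δ ρ) (u : List ℕ)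
    (R : List (Fin (k + 1))) :
    ReflTransGen (Step (gr (n := n) w l)) ([], fm u (R.map nZ ++ [nE])) ([], fm u []) := by
  have hm : ∀ {ρ}, Rl δ ρ → ρ ∈ (gr (n := n) w l).2 := fun {ρ} h =>
    List.mem_cons_of_mem _ ((hl ρ).2 h)
  induction R with
  | nil => exact ReflTransGen.single (do_bot (hm Rl.e0) _ _)
  | cons x R ih => exact ReflTransGen.head (do_bot (hm (Rl.z0 x)) _ _) ih

theorem complete {l : List Prd} (hl : ∀ ρ, ρ ∈ l ↔ Rl δ ρ) (h : Hlt δ w) :
    ∃ v, v ∈ lang (gr (n := n) w l) := by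
  obtain ⟨t, ht⟩ := h
  have hm : ∀ {ρ}, Rl δ ρ → ρ ∈ (gr (n := n) w l).2 := fun {ρ} h =>
    List.mem_cons_of_mem _ ((hl ρ).2 h)
  have h0 : Step (gr (n := n) w l) ([], [Sum.inl nS]) (mc [0] ((0 : Fin (n + 2)), [], w)) := by
    have := do_push (G := gr (n := n) w l) (A := nS) (x := iQ (0 : Fin (n + 2)))
      (l0 := w.map nZ ++ [nE]) List.mem_cons_self [] [] []
    simpa [mc, fm] using this
  have h1 : ∀ t, ∃ u, ReflTransGen (Step (gr (n := n) w l)) ([], [Sum.inl nS])
      (mc u ((stp δ)^[t] ((0 : Fin (n + 2)), [], w))) := by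
    intro t
    induction t with
    | zero => exact ⟨[0], ReflTransGen.single h0⟩
    | succ t ih =>
      obtain ⟨u, hu⟩ := ih
      obtain ⟨u', hu'⟩ := one_step δ w hl u ((stp δ)^[t] ((0 : Fin (n + 2)), [], w))
      rw [Function.iterate_succ_apply']
      exact ⟨u', hu.trans hu'⟩
  obtain ⟨u, hu⟩ := h1 t
  generalize (stp δ)^[t] ((0 : Fin (n + 2)), [], w) = c at hu ht
  obtain ⟨q, L, R⟩ := c
  simp only at ht
  subst ht
  have h2 : Step (gr (n := n) w l) (mc u ((1 : Fin (n + 2)), L, R))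
      (L.map iX, fm u (nC :: (R.map nZ ++ [nE]).tail)) := by
    rcases R with _ | ⟨s, R⟩
    · exact do_pop (hm Rl.he) _ _ _
    · exact do_pop (hm (Rl.hz s)) _ _ _
  have h3 := clean_stack δ w hl u (R.map nZ ++ [nE]).tail L
  have h4 : ReflTransGen (Step (gr (n := n) w l)) ([], fm u (R.map nZ ++ [nE]).tail)
      ([], fm u []) := by
    rcases R with _ | ⟨s, R⟩
    · exact ReflTransGen.refl
    · exact clean_form δ w hl u R
  refine ⟨u, ?_⟩
  have h5 := ((hu.tail h2).trans h3).trans h4
  have e : fm u [] = u.map Sum.inr := by simp [fm]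
  rw [e] at h5
  exact h5

/-- No algorithm decides, given a global index grammar, whether its language is empty. -/
theorem result : ¬ ComputablePred fun G : GIG => ∀ v, v ∉ lang G := by
  intro h
  obtain ⟨n, k, δ, F, hF, hn⟩ := exists_source
  obtain ⟨l, hl⟩ := exists_list δ
  apply hn
  have hg : Computable fun m => gr (n := n) (F m) l := by
    unfold gr sr
    refine Computable.pair (Computable.const _) (Computable.list_cons.comp
      (Computable.pair (Computable.const _) (Computable.pair (Computable.const _) ?_))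
      (Computable.const _))
    have h1 : Primrec fun v : List (Fin (k + 1)) =>
        ((v.map nZ ++ [nE]).map Sum.inl : Str) := by
      refine Primrec.list_map (Primrec.list_append.comp (Primrec.list_map Primrec.id ?_)
        (Primrec.const _)) ?_
      · exact (Primrec₂.natPair.comp (Primrec.const 1) (Primrec.fin_val.comp Primrec.snd))
      · exact Primrec.sumInl.comp Primrec.snd
    exact h1.to_comp.comp hF
  have h2 : ComputablePred fun m => ∀ v, v ∉ lang (gr (n := n) (F m) l) :=
    ComputablePred.computable_of_manyOneReducible ⟨_, hg, fun m => Iff.rfl⟩ h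
  refine h2.not.of_eq fun m => ?_
  constructor
  · intro h3
    rw [not_forall_not] at h3
    obtain ⟨v, hv⟩ := h3
    exact sound δ (F m) hl hv
  · intro h3 h4
    obtain ⟨v, hv⟩ := complete δ (F m) hl h3
    exact h4 v hv

end Pool.Agent.Results.MP_c0e261_lc.EmptinessUndecidable
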